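import Mathlib

set_option autoImplicit false

/-!
# QWL: the definitions of the problem MP_9ce95b_an, written literally (any dimension `d`, any `p > 1`)

The critical norm conjecture for `u_tt - Δu + |u|^{p-1} u = 0` on `ℝ^d`. Tempered objects are tested with
test functions `φ ∈ C_c^∞(ℝ^d)`.

* `HD a f`: norm of `f` in the homogeneous Sobolev space `Ḣ^a(ℝ^d)`, `|a| < d/2`, by duality with `Ḣ^{-a}`.
* `cosP t φ = cos(t √(-Δ)) φ`, `sinP t φ = (sin(t √(-Δ)) / √(-Δ)) φ`, `dcosP t φ = - √(-Δ) sin(t √(-Δ)) φ`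
  (Fourier multipliers; by finite speed of propagation these are again test functions).
* `IsS t f g w z`: `w = S(t)(f,g)` and `z = ∂_t S(t)(f,g)`, where `S(t)(f,g) = cos(t √(-Δ)) f + (sin(t √(-Δ)) / √(-Δ)) g`.
* `IsSoln p I u v`: `u` is a strong solution on the interval `I`, `v = ∂_t u`.
* `IsMaxSoln p I u v`: `u` has maximal lifespan `I`.
-/

open MeasureTheory Filter Topology Set
open scoped ENNReal NNReal RealInnerProductSpace ContDiff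

namespace Pool.Agent.QWL

/-- `ℝ^d`. -/
abbrev X (d : ℕ) := EuclideanSpace ℝ (Fin d)

variable {d : ℕ}

/-- Test functions. -/
def IsTest (φ : X d → ℝ) : Prop := ContDiff ℝ ∞ φ ∧ HasCompactSupport φ

/-- Fourier transform. -/
noncomputable def ft (φ : X d → ℝ) (ξ : X d) : ℂ :=
  ∫ x, (φ x : ℂ) * Complex.exp (-2 * Real.pi * Complex.I * ((inner ℝ x ξ : ℝ) : ℂ))

/-- `‖φ‖²` in `Ḣ^a` for a test function `φ`, `a > -d/2`. -/
noncomputable def hs (a : ℝ) (φ : X d → ℝ) : ℝ :=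
  ∫ ξ, (2 * Real.pi * ‖ξ‖) ^ (2 * a) * ‖ft φ ξ‖ ^ 2

/-- Norm of `f` in `Ḣ^a(ℝ^d)`, `|a| < d/2`: the supremum of `|∫ f φ|` over the test functions `φ` with
`‖φ‖_{Ḣ^{-a}} ≤ 1`; `⊤` if `f` is not locally integrable. -/
noncomputable def HD (a : ℝ) (f : X d → ℝ) : ℝ≥0∞ := by
  classical exact if LocallyIntegrable f volume then
    ⨆ (φ : X d → ℝ) (_ : IsTest φ) (_ : hs (-a) φ ≤ 1), ENNReal.ofReal |∫ x, f x * φ x| else ⊤

/-- The critical regularity `s_c = d/2 - 2/(p-1)`. -/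
noncomputable def sc (d : ℕ) (p : ℝ) : ℝ := d / 2 - 2 / (p - 1)

/-- The norm of `(f, g)` in `Ḣ^{s_c} × Ḣ^{s_c - 1}` (`⊤` outside the space). -/
noncomputable def HN (p : ℝ) (f g : X d → ℝ) : ℝ≥0∞ := HD (sc d p) f + HD (sc d p - 1) g

/-- The Fourier multiplier with the real symbol `m`, on test functions. -/
noncomputable def mult (m : X d → ℝ) (φ : X d → ℝ) (x : X d) : ℝ :=
  (∫ ξ, (m ξ : ℂ) * ft φ ξ * Complex.exp (2 * Real.pi * Complex.I * ((inner ℝ x ξ : ℝ) : ℂ))).re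

/-- `cos(t √(-Δ)) φ`. -/
noncomputable def cosP (t : ℝ) (φ : X d → ℝ) : X d → ℝ :=
  mult (fun ξ => Real.cos (t * (2 * Real.pi * ‖ξ‖))) φ

/-- `(sin(t √(-Δ)) / √(-Δ)) φ`. -/
noncomputable def sinP (t : ℝ) (φ : X d → ℝ) : X d → ℝ :=
  mult (fun ξ => Real.sin (t * (2 * Real.pi * ‖ξ‖)) / (2 * Real.pi * ‖ξ‖)) φ

/-- `- √(-Δ) sin(t √(-Δ)) φ`, the time derivative of `cos(t √(-Δ)) φ`. -/
noncomputable def dcosP (t : ℝ) (φ : X d → ℝ) : X d → ℝ :=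
  mult (fun ξ => -(2 * Real.pi * ‖ξ‖ * Real.sin (t * (2 * Real.pi * ‖ξ‖)))) φ

/-- `w = S(t)(f,g) = cos(t √(-Δ)) f + (sin(t √(-Δ)) / √(-Δ)) g` and `z = ∂_t S(t)(f,g)`, tested with `φ`
(the multipliers are self-adjoint). -/
def IsS (t : ℝ) (f g w z : X d → ℝ) : Prop := ∀ φ : X d → ℝ, IsTest φ →
  ∫ x, w x * φ x = (∫ x, f x * cosP t φ x) + ∫ x, g x * sinP t φ x ∧
  ∫ x, z x * φ x = (∫ x, f x * dcosP t φ x) + ∫ x, g x * cosP t φ x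

/-- `u` is a strong solution of `u_tt - Δu + |u|^{p-1} u = 0` on the interval `I`, and `v = ∂_t u`:
`(u,v)` is a continuous curve in `Ḣ^{s_c} × Ḣ^{s_c - 1}` on `I`, `u ∈ L^{p-1}_loc(I; L^{d(p-1)})`
(scale invariant Strichartz space at the regularity `s_c`), `u_t = v`, and the Duhamel formula
`u(t) = S(t-s)(u(s),v(s)) - ∫_s^t (sin((t-r) √(-Δ)) / √(-Δ)) |u|^{p-1} u (r) dr` for all `s, t ∈ I`. -/
def IsSoln (p : ℝ) (I : Set ℝ) (u v : ℝ → X d → ℝ) : Prop :=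
  I.OrdConnected ∧ (∀ t ∈ I, HN p (u t) (v t) < ⊤) ∧
  (∀ t ∈ I, Tendsto (fun s => HN p (fun x => u s x - u t x) (fun x => v s x - v t x)) (𝓝[I] t) (𝓝 0)) ∧
  (∀ s ∈ I, ∀ t ∈ I, ∫⁻ r in Icc s t, eLpNorm (u r) (ENNReal.ofReal (d * (p - 1))) volume ^ (p - 1) < ⊤) ∧
  (∀ φ : X d → ℝ, IsTest φ → ∀ s ∈ I, ∀ t ∈ I,
    (∫ x, u t x * φ x) - (∫ x, u s x * φ x) = ∫ r in s..t, ∫ x, v r x * φ x) ∧
  ∀ φ : X d → ℝ, IsTest φ → ∀ s ∈ I, ∀ t ∈ I,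
    ∫ x, u t x * φ x = (∫ x, u s x * cosP (t - s) φ x) + (∫ x, v s x * sinP (t - s) φ x) -
      ∫ r in s..t, ∫ x, |u r x| ^ (p - 1) * u r x * sinP (t - r) φ x

/-- `u` is a solution with maximal lifespan `I`: no solution extends it to a strictly larger interval. -/
def IsMaxSoln (p : ℝ) (I : Set ℝ) (u v : ℝ → X d → ℝ) : Prop :=
  IsSoln p I u v ∧ I.Nonempty ∧ ∀ (J : Set ℝ) (u' v' : ℝ → X d → ℝ), IsSoln p J u' v' → I ⊆ J →
    (∀ t ∈ I, u' t =ᵐ[volume] u t ∧ v' t =ᵐ[volume] v t) → J ⊆ I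

/-- Scattering along the filter `l` (`atTop`: `t → +∞`, `atBot`: `t → -∞`): for some `(f,g)` in the critical space
`(u(t), u_t(t)) - (S(t)(f,g), ∂_t S(t)(f,g)) → 0` in `Ḣ^{s_c} × Ḣ^{s_c-1}`. -/
def Scatters (p : ℝ) (u v : ℝ → X d → ℝ) (l : Filter ℝ) : Prop :=
  ∃ f g : X d → ℝ, HN p f g < ⊤ ∧ ∃ w z : ℝ → X d → ℝ,
    (∀ t, HN p (w t) (z t) < ⊤ ∧ IsS t f g (w t) (z t)) ∧
    Tendsto (fun t => HN p (fun x => u t x - w t x) (fun x => v t x - z t x)) l (𝓝 0)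

/-- The statement of Q1 for given `d` and `p`. -/
def Final (d : ℕ) (p : ℝ) : Prop :=
  ∀ (I : Set ℝ) (u v : ℝ → X d → ℝ), IsMaxSoln p I u v →
    (∃ A : ℝ≥0, ∀ t ∈ I, HN p (u t) (v t) ≤ A) →
    I = univ ∧ Scatters p u v atTop ∧ Scatters p u v atBot

end Pool.Agent.QWL
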