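import Pool.Agent.QWL.Defs

set_option autoImplicit false

/-!
# QWL: the uniform space-time bound
-/

open MeasureTheory Filter Topology Set
open scoped ENNReal NNReal

namespace Pool.Agent.QWL

/-- Uniform bound: the Strichartz norm of a solution on any interval is bounded by a function of the supremum
of the critical norm. -/
def UnifBound (d : ℕ) (p : ℝ) : Prop :=
  ∀ A : ℝ≥0, ∃ L : ℝ≥0, ∀ (I : Set ℝ) (u v : ℝ → X d → ℝ), IsSoln p I u v →
    (∀ t ∈ I, HN p (u t) (v t) ≤ A) →
    ∫⁻ t in I, eLpNorm (u t) (ENNReal.ofReal (d * (p - 1))) volume ^ (p - 1) ≤ L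

end Pool.Agent.QWL
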